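import Pool.Agent.J6H37.PU.Red
import Pool.Agent.J6H37.PU.Fwd
import Pool.Agent.J6H37.PU.Exch
import Pool.Agent.J6H37.PU.Bwd
import Pool.Agent.J6H37.PU.PolyRed

/-!
# Preemptive scheduling with few processing times: the number of late jobs

The problem `P | pmtn | ∑ U_j`, parameterized by the number of distinct processing times, reduces in
polynomial time to mixed integer linear programming with one integer variable for each processing
time. So by the theorem of Lenstra and Kannan on mixed integer linear programs with few integer
variables (published, not formalized here) `P | pmtn | ∑ U_j` is fixed-parameter tractable with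
respect to the number of distinct processing times: the answer to the second of the three questions is
positive. More generally this holds for `P | pmtn, r_j | ∑ w_j U_j` and the number of distinct triples
`(r_j, p_j, w_j)`.

Outline of the proof. The release and due dates cut the time into at most `2 n` intervals. The linear
program has a variable `y_j` (the accepted fraction of job `j`) for each job and a variable `x_jt` (the
amount of job `j` processed in the interval `t`) for each job and each interval in its window, with
`x_jt ≤ L_t y_j`, `∑_t x_jt = p_j y_j` and `∑_j x_jt ≤ m L_t`; only the sums of the `y_j` over the jobs of the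
same type have to be integers. If two jobs of the same type have fractional values, one can move a part of
the one with the earlier due date to the other one: what is processed in a window fits into the
larger window, and `x_jt ≤ L_t y_j` is preserved because the same proportion is moved. After finitely many
steps all `y_j` are `0` or `1`; McNaughton's wrap-around rule in each interval gives a schedule in which
the jobs with `y_j = 1` are on time, and the other jobs are processed at the end.
-/

set_option autoImplicit false

namespace Pool.Agent.Results.MP_1f44d9_lc.TardyJobsFewLengths

open Pool.Agent.NPC Pool.Agent.H633R2 Pool.Agent.J6H37.PU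

/-- **`P | pmtn | ∑ U_j` parameterized by the number of distinct processing times.**

(1) There is a polynomial-time reduction from `P | pmtn | ∑ U_j` to the feasibility of mixed integer linear
programs with at most as many integer variables as there are distinct processing times.

(2) The same for `P | pmtn, r_j | ∑ w_j U_j` and the number of distinct triples of release date,
processing time and weight.

(3) If the feasibility of mixed integer linear programs is fixed-parameter tractable with respect to the
number of the integer variables (theorem of Lenstra and Kannan, not proved here), then both problems are
fixed-parameter tractable with respect to these numbers. -/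
theorem result :
    (∃ f : (ℕ × List (ℕ × ℕ)) × ℕ → List ℕ × List (List (ℕ × ℤ) × ℤ), Poly f ∧
      ∀ I, (Tardy I ↔ Milp (f I)) ∧ ints (f I) ≤ pbar I) ∧
    (∃ f : (ℕ × List Job) × ℕ → List ℕ × List (List (ℕ × ℤ) × ℤ), Poly f ∧
      ∀ I, (WTardy I ↔ Milp (f I)) ∧ ints (f I) ≤ types I) ∧
    (IsFpt ints Milp → IsFpt pbar Tardy ∧ IsFpt types WTardy) := by
  have hW : ∀ I, (WTardy I ↔ Milp (red I)) ∧ ints (red I) ≤ types I :=
    fun I => ⟨red_iff fwd exch bwd I, ints_le I⟩
  have hT : ∀ I, (Tardy I ↔ Milp (red (embed I))) ∧ ints (red (embed I)) ≤ pbar I :=
    fun I => ⟨(embed_iff I).trans (hW _).1, (ints_le _).trans (embed_types I)⟩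
  have hP : Poly (fun I => red (embed I)) := Poly.comp poly poly_embed
  refine ⟨⟨_, hP, hT⟩, ⟨_, poly, hW⟩, fun h => ⟨?_, ?_⟩⟩
  · exact IsFpt.of_reduces ⟨_, fun n => n, FptTime.of_poly hP, Computable.id, hT⟩ h
  · exact IsFpt.of_reduces ⟨_, fun n => n, FptTime.of_poly poly, Computable.id, hW⟩ h

end Pool.Agent.Results.MP_1f44d9_lc.TardyJobsFewLengths
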